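import Mathlib

/-!
# A finite set of integers with `|S + 2·S| < |S + S|`: definitions and proof
-/

namespace Pool.Agent.X50.SD

open scoped NNReal ENNReal

/-- A fractional dilate: a function `ℤ → [0,1]` with finite sum. -/
def FracDilate (α : ℤ → ℝ≥0) : Prop := (∀ i, α i ≤ 1) ∧ Summable α

/-- The inner sum `∑_{j + l k = i} α(j) α(k)`, over all pairs of integers `(j, k)`. -/
noncomputable def inner (l : ℤ) (α : ℤ → ℝ≥0) (i : ℤ) : ℝ≥0∞ :=
  ∑' q : {q : ℤ × ℤ // q.1 + l * q.2 = i}, (α q.1.1 : ℝ≥0∞) * (α q.1.2 : ℝ≥0∞)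

/-- `‖α + l·α‖ = inf_{0<p<1} ∑_i (∑_{j + l k = i} α(j) α(k))^p` (`0^p = 0` as `p > 0`). -/
noncomputable def nrm (l : ℤ) (α : ℤ → ℝ≥0) : ℝ≥0∞ :=
  ⨅ p : Set.Ioo (0 : ℝ) 1, ∑' i : ℤ, inner l α i ^ (p : ℝ)

/-- The indicator function of a finite set. -/
noncomputable def ind (S : Finset ℤ) : ℤ → ℝ≥0 := fun i => if i ∈ S then 1 else 0

/-! ### data -/

/-- bits of the set -/
def M : ℕ := 2648359561693010225532101091196209862415243296451503612544238177
/-- bits of `S + S` -/
def T1 : ℕ := 5076578989227955176135789350014542994706789076409396565685502806179400801460156579330353921244711203635520091245085733947301473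
/-- bits of `S + 2·S` -/
def T2 : ℕ := 8911001255942136067652168576300017947227231275080062212006116527619596366200106366432977171618021168244723179673580727656819372350529614377238043143415960675842075579595807297504337579726433

/-- bounded universal quantifier -/
def allB (p : ℕ → Bool) : ℕ → Bool
  | 0 => true
  | n + 1 => p n && allB p n

theorem allB_spec (p : ℕ → Bool) (n : ℕ) (h : allB p n = true) : ∀ k < n, p k = true := by
  induction n with
  | zero => intro k hk; omega
  | succ n ih =>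
    intro k hk
    simp only [allB, Bool.and_eq_true] at h
    rcases Nat.lt_succ_iff_lt_or_eq.mp hk with h1 | h1
    · exact ih h.2 k h1
    · rw [h1]; exact h.1

theorem not_allB (p : ℕ → Bool) (n : ℕ) (h : allB p n = false) : ∃ k < n, p k = false := by
  by_contra hc
  push Not at hc
  have : allB p n = true := by
    clear h
    induction n with
    | zero => rfl
    | succ n ih =>
      simp only [allB, Bool.and_eq_true]
      refine ⟨?_, ih (fun k hk => hc k (by omega))⟩
      have := hc n (by omega)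
      simpa using this
  rw [this] at h
  simp at h

/-- counting -/
def cnt (p : ℕ → Bool) : ℕ → ℕ
  | 0 => 0
  | n + 1 => cnt p n + (bif p n then 1 else 0)

theorem cnt_spec (p : ℕ → Bool) (n : ℕ) :
    ((Finset.range n).filter (fun e => p e = true)).card = cnt p n := by
  induction n with
  | zero => simp [cnt]
  | succ n ih =>
    rw [Finset.range_add_one, Finset.filter_insert]
    by_cases h : p n = true
    · rw [if_pos h, Finset.card_insert_of_notMem (by simp), ih]
      simp [cnt, h]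
    · rw [if_neg h, ih]
      simp [cnt, h]

theorem sum_aux : allB (fun a => !(M.testBit a) ||
    allB (fun b => !(M.testBit b) || T2.testBit (a + 2 * b)) 211) 211 = true := by decide +kernel

theorem wit_aux : allB (fun i => !(T1.testBit i) ||
    !(allB (fun a => !(M.testBit a && Nat.ble a i && M.testBit (i - a))) 211)) 421 = true := by
  decide +kernel

theorem cntM : cnt (fun e => M.testBit e) 211 = 47 := by decide +kernel
theorem cnt1 : cnt (fun e => T1.testBit e) 421 = 373 := by decide +kernel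
theorem cnt2 : cnt (fun e => T2.testBit e) 631 = 372 := by decide +kernel

/-- the set of integers coded by a bit mask -/
def ofMask (m n : ℕ) : Finset ℤ :=
  ((Finset.range n).filter (fun e => m.testBit e = true)).map Nat.castEmbedding

theorem mem_ofMask (m n : ℕ) (i : ℤ) :
    i ∈ ofMask m n ↔ ∃ e : ℕ, e < n ∧ m.testBit e = true ∧ (e : ℤ) = i := by
  unfold ofMask
  simp only [Finset.mem_map, Finset.mem_filter, Finset.mem_range, Nat.castEmbedding_apply,
    and_assoc]

theorem card_ofMask (m n : ℕ) : (ofMask m n).card = cnt (fun e => m.testBit e) n := by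
  unfold ofMask
  rw [Finset.card_map, cnt_spec]

/-- the set `{0, 5, 6, 9} ∪ {14 + 10 i, 16 + 10 i : i ≤ 18} ∪ {204, 205, 206, 209, 210}` -/
def S : Finset ℤ := ofMask M 211

theorem card_S : S.card = 47 := by
  rw [S, card_ofMask]; exact cntM

theorem sum2_mem (a b : ℤ) (ha : a ∈ S) (hb : b ∈ S) : a + 2 * b ∈ ofMask T2 631 := by
  rw [S, mem_ofMask] at ha hb
  obtain ⟨x, hx, hx2, rfl⟩ := ha
  obtain ⟨y, hy, hy2, rfl⟩ := hb
  have h := allB_spec _ _ sum_aux x hx
  simp only [Bool.or_eq_true, Bool.not_eq_true'] at h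
  rcases h with h | h
  · rw [h] at hx2; simp at hx2
  · have h2 := allB_spec _ _ h y hy
    simp only [Bool.or_eq_true, Bool.not_eq_true'] at h2
    rcases h2 with h2 | h2
    · rw [h2] at hy2; simp at hy2
    · rw [mem_ofMask]
      exact ⟨x + 2 * y, by omega, h2, by push_cast; ring⟩

theorem sum1_wit (i : ℤ) (hi : i ∈ ofMask T1 421) : ∃ a ∈ S, ∃ b ∈ S, a + b = i := by
  rw [mem_ofMask] at hi
  obtain ⟨x, hx, hx2, rfl⟩ := hi
  have h := allB_spec _ _ wit_aux x hx
  simp only [Bool.or_eq_true, Bool.not_eq_true'] at h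
  rcases h with h | h
  · rw [h] at hx2; simp at hx2
  · obtain ⟨a, ha, h2⟩ := not_allB _ _ h
    simp only [Bool.not_eq_false', Bool.and_eq_true, Nat.ble_eq] at h2
    obtain ⟨⟨h3, h4⟩, h5⟩ := h2
    have hb : x - a < 211 := by
      by_contra hc
      have : M.testBit (x - a) = false := by
        apply Nat.testBit_lt_two_pow
        calc M < 2 ^ 211 := by unfold M; norm_num
          _ ≤ 2 ^ (x - a) := Nat.pow_le_pow_right (by norm_num) (by omega)
      rw [this] at h5
      simp at h5
    refine ⟨a, ?_, ((x - a : ℕ) : ℤ), ?_, ?_⟩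
    · rw [S, mem_ofMask]; exact ⟨a, ha, h3, rfl⟩
    · rw [S, mem_ofMask]; exact ⟨x - a, hb, h5, rfl⟩
    · push_cast [Nat.cast_sub h4]; ring

theorem card_sum1 : 373 ≤ (Finset.image₂ (fun a b : ℤ => a + b) S S).card := by
  rw [← cnt1, ← card_ofMask]
  apply Finset.card_le_card
  intro i hi
  obtain ⟨a, ha, b, hb, h⟩ := sum1_wit i hi
  rw [← h]
  exact Finset.mem_image₂_of_mem ha hb

theorem card_sum2 : (Finset.image₂ (fun a b : ℤ => a + 2 * b) S S).card ≤ 372 := by
  rw [← cnt2, ← card_ofMask]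
  apply Finset.card_le_card
  rw [Finset.image₂_subset_iff]
  intro a ha b hb
  exact sum2_mem a b ha hb

/-! ### the norms -/

theorem ind_le (i : ℤ) : ind S i ≤ 1 := by
  unfold ind; split_ifs <;> simp

theorem ind_summable : Summable (ind S) := by
  apply summable_of_ne_finset_zero (s := S)
  intro b hb
  unfold ind
  rw [if_neg hb]

theorem frac : FracDilate (ind S) := ⟨ind_le, ind_summable⟩

theorem tsum_ind : ∑' k : ℤ, (ind S k : ℝ≥0∞) = 47 := by
  rw [tsum_eq_sum (s := S)]
  · rw [Finset.sum_congr rfl (g := fun _ => (1 : ℝ≥0∞))]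
    · rw [Finset.sum_const, card_S]; simp
    · intro k hk
      unfold ind
      rw [if_pos hk]; simp
  · intro k hk
    unfold ind
    rw [if_neg hk]; simp

theorem inner_le (i : ℤ) : inner 2 (ind S) i ≤ 47 := by
  rw [← tsum_ind]
  have hinj : Function.Injective
      (fun q : {q : ℤ × ℤ // q.1 + 2 * q.2 = i} => q.1.2) := by
    rintro ⟨⟨a, b⟩, h⟩ ⟨⟨c, d⟩, h'⟩ hq
    simp only at hq h h'
    apply Subtype.ext
    apply Prod.ext
    · simp only; omega
    · exact hq
  refine le_trans ?_ (ENNReal.tsum_comp_le_tsum_of_injective hinj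
    (fun k => (ind S k : ℝ≥0∞)))
  apply ENNReal.tsum_le_tsum
  intro q
  have h1 : (ind S q.1.1 : ℝ≥0∞) ≤ 1 := by exact_mod_cast ind_le q.1.1
  calc (ind S q.1.1 : ℝ≥0∞) * (ind S q.1.2 : ℝ≥0∞) ≤ 1 * (ind S q.1.2 : ℝ≥0∞) := by gcongr
    _ = _ := one_mul _

theorem inner_zero (i : ℤ) (hi : i ∉ ofMask T2 631) : inner 2 (ind S) i = 0 := by
  unfold inner
  rw [ENNReal.tsum_eq_zero]
  rintro ⟨⟨a, b⟩, h⟩
  simp only at h ⊢
  by_cases ha : a ∈ S
  · by_cases hb : b ∈ S
    · exact absurd (h ▸ sum2_mem a b ha hb) hi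
    · unfold ind; rw [if_neg hb]; simp
  · unfold ind; rw [if_neg ha]; simp

theorem inner_ge (i : ℤ) (hi : i ∈ ofMask T1 421) : 1 ≤ inner 1 (ind S) i := by
  obtain ⟨a, ha, b, hb, h⟩ := sum1_wit i hi
  unfold inner
  refine le_trans ?_ (ENNReal.le_tsum ⟨(a, b), by simp only; rw [one_mul]; exact h⟩)
  unfold ind
  simp only
  rw [if_pos ha, if_pos hb]
  simp

theorem nrm1 : 373 ≤ nrm 1 (ind S) := by
  unfold nrm
  apply le_iInf
  rintro ⟨p, hp0, hp1⟩
  calc (373 : ℝ≥0∞) = ∑ i ∈ ofMask T1 421, (1 : ℝ≥0∞) := by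
        rw [Finset.sum_const, card_ofMask, cnt1]; simp
    _ ≤ ∑ i ∈ ofMask T1 421, inner 1 (ind S) i ^ (p : ℝ) := by
        apply Finset.sum_le_sum
        intro i hi
        exact ENNReal.one_le_rpow (inner_ge i hi) hp0
    _ ≤ _ := ENNReal.sum_le_tsum _

theorem pow_bound : (47 : ℝ≥0∞) ^ ((1 / 20000 : ℝ)) ≤ ENNReal.ofReal (20046 / 20000) := by
  have h : (47 : ℝ) ^ ((1 / 20000 : ℝ)) ≤ 20046 / 20000 := by
    have := rpow_one_add_le_one_add_mul_self (s := 46) (by norm_num) (p := 1 / 20000)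
      (by norm_num) (by norm_num)
    norm_num at this ⊢
    linarith
  have h2 : (47 : ℝ≥0∞) = ENNReal.ofReal 47 := by
    rw [ENNReal.ofReal_ofNat]
  rw [h2, ENNReal.ofReal_rpow_of_pos (by norm_num)]
  exact ENNReal.ofReal_le_ofReal h

theorem nrm2 : nrm 2 (ind S) < 373 := by
  unfold nrm
  refine lt_of_le_of_lt (iInf_le _ (⟨1 / 20000, by norm_num, by norm_num⟩ : Set.Ioo (0 : ℝ) 1)) ?_
  show ∑' i : ℤ, inner 2 (ind S) i ^ ((1 / 20000 : ℝ)) < 373
  rw [tsum_eq_sum (s := ofMask T2 631)]
  · calc ∑ i ∈ ofMask T2 631, inner 2 (ind S) i ^ ((1 / 20000 : ℝ))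
        ≤ ∑ i ∈ ofMask T2 631, ENNReal.ofReal (20046 / 20000) := by
          apply Finset.sum_le_sum
          intro i _
          refine le_trans ?_ pow_bound
          exact ENNReal.rpow_le_rpow (inner_le i) (by norm_num)
      _ = ENNReal.ofReal (372 * (20046 / 20000)) := by
          rw [Finset.sum_const, card_ofMask, cnt2, nsmul_eq_mul,
            ENNReal.ofReal_mul (by norm_num)]
          simp
      _ < ENNReal.ofReal 373 := by
          rw [ENNReal.ofReal_lt_ofReal_iff (by norm_num)]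
          norm_num
      _ = 373 := by rw [ENNReal.ofReal_ofNat]
  · intro i hi
    rw [inner_zero i hi]
    exact ENNReal.zero_rpow_of_pos (by norm_num)

end Pool.Agent.X50.SD
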